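import Mathlib
import Pool.Agent.Run7.h988.DR.Tower

/-!
# Rationality of the central value of the base change of an elliptic curve to a field `F`

Let `B` be an elliptic curve over `k` (`k = ℚ` for instance), `K/k` a Galois extension with group `G`,
`F = K^H` any field between `k` and `K`, Galois over `k` or not, and `A` the base change of `B` to `F`. Then
`L(s, A)` is the product of the `L(B/k, χ, s) ^ m χ`, where `m χ` is the multiplicity of the irreducible
character `χ` of `G` in the permutation representation on `G/H`, and the period `Ω(A)` of the question is, up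
to a rational number, the product of the Deligne periods `P χ ^ m χ` of the twists. The question asks whether
`L(1, A) / Ω(A)` is rational.

What is known, over many base fields, are the values of the twists by Hecke characters of finite order of
the fields between `k` and `K` (Shimura, Hida, ...); if they are known for all fields then by Brauer's theorem
`L(1, A)` is a product of powers, with positive and negative exponents, of such values; some of them may be
zero, also if `L(1, A) ≠ 0`, and then nothing follows.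

Let `k ⊆ F₀ ⊆ F₁ ⊆ … ⊆ F_{n+1} ⊆ K` be Galois extensions of `k` such that `F_{i+1}/F_i` is abelian for
`i ≤ n`, `F ⊆ F_{n+1}`, `N i = Gal(K/F_i)`; if `K/k` is solvable one may take `F₀ = k`, `F_{n+1} = K`. We suppose
that Deligne's conjecture is known, with coefficients in `E'`, for `B` over the fields between `k` and `F_n`,
twisted by Hecke characters of finite order (`Ind U κ`, `U ⊇ N n`), vanishing values included. Suppose
that for each `i ≤ n` and each nontrivial character `λ` of `Gal(F_{i+1}/F_i)` which occurs in the permutation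
representation on `G/H`, with stabilizer `S` in `G`, the group `S/N_i` is nilpotent, or the order at `1` of the
L-function of `B` over `F_i` twisted by `λ` is at most one, or `S` is solvable and this order is smaller than all
prime divisors of `|S|`; and the same for the trivial character of `N 0` (no condition if `F₀ = k`). Then
`L(1, A)` is a rational multiple of the period.
-/

set_option autoImplicit false

open Filter Topology Pool.Agent.H541R3.ART

namespace Pool.Agent.Results.MP_90f827_nt.BaseChangesNonGalois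

/-- The L-functions `L χ` of the twists of the elliptic curve `B` by the irreducible complex characters
`χ` of the group `G`, meromorphic and not identically zero near `c`, and their periods `P χ ≠ 0`. -/
structure Twists (G : Type) [Group G] (c : ℂ) where
  /-- the L-functions -/
  L : (G → ℂ) → ℂ → ℂ
  /-- the periods -/
  P : (G → ℂ) → ℂ
  /-- the L-functions are meromorphic and not identically zero near `c` -/
  mero : ∀ χ ∈ Irr G, MeromorphicAt (L χ) c ∧ meromorphicOrderAt (L χ) c ≠ ⊤
  /-- the periods are not zero -/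
  ne : ∀ χ ∈ Irr G, P χ ≠ 0

/-- `f` is the sum of `m χ` copies of `χ` over the irreducible complex characters `χ` of `G` -/
def IsSum {G : Type} [Group G] (f : G → ℂ) (m : (G → ℂ) → ℕ) : Prop :=
  ∀ g, f g = ∑ᶠ χ ∈ Irr G, (m χ : ℂ) * χ g

variable {G : Type} [Group G] {c : ℂ}

/-- **Deligne's conjecture** at `c` for the character `f` of `G` with values in the field `E`: for one
`e ∈ E`, at every embedding `τ` of `E`, the value at `c` of the L-function of `τ ∘ f` (the product of the
L-functions of the irreducible constituents) is `τ e` times the period of `τ ∘ f`. -/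
def Holds (D : Twists G c) (E : Type) [Field E] (f : G → E) : Prop :=
  ∃ e : E, ∀ (τ : E →+* ℂ) (m : (G → ℂ) → ℕ), IsSum (fun g => τ (f g)) m →
    Tendsto (fun s => ∏ᶠ χ ∈ Irr G, D.L χ s ^ m χ) (𝓝[≠] c) (𝓝 (τ e * ∏ᶠ χ ∈ Irr G, D.P χ ^ m χ))

open Classical in
/-- the function induced from a function on a subgroup: `(Ind f) g` is the sum of the values of `f` at
the conjugates `x⁻¹ g x ∈ H`, `x ∈ G`, divided by `|H|` -/
noncomputable def Ind {k : Type*} [Field k] (H : Subgroup G) (f : H → k) (g : G) : k :=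
  (Nat.card H : k)⁻¹ * ∑ᶠ x : G, if h : x⁻¹ * g * x ∈ H then f ⟨x⁻¹ * g * x, h⟩ else 0

/-- the stabilizer of a linear character of the normal subgroup `N` under conjugation -/
def Stabilizer {M : Type} [CommGroup M] {N : Subgroup G} [N.Normal] (lam : N →* M) : Subgroup G where
  carrier := {g | ∀ n : N, lam (MulAut.conjNormal g n) = lam n}
  one_mem' := fun n => by simp
  mul_mem' := fun {a b} ha hb n => by
    rw [map_mul, MulAut.mul_apply, ha, hb]
  inv_mem' := fun {a} ha n => by
    rw [← ha (MulAut.conjNormal a⁻¹ n), ← MulAut.mul_apply, ← map_mul, mul_inv_cancel, map_one,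
      MulAut.one_apply]

/-- the order at `c`, at the embedding `τ` of `E'`, of the L-function of the representation induced from
the linear character `lam` of `N` is less than `b` -/
def OrderBelow (D : Twists G c) {E' : Type} [Field E'] (τ : E' →+* ℂ) {N : Subgroup G}
    (lam : N →* E'ˣ) (b : ℕ) : Prop :=
  ∃ m : (G → ℂ) → ℕ, IsSum (Ind N (fun x => τ ((lam x : E'ˣ) : E'))) m ∧
    meromorphicOrderAt (fun s => ∏ᶠ χ ∈ Irr G, D.L χ s ^ m χ) c < b

/-- the condition on the linear character `lam` of the normal subgroup `N`, with stabilizer `S`: `S/N` is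
nilpotent, or at one embedding the order of the L-function of `Ind lam` is at most one, or `S` is solvable
and at one embedding this order is smaller than all prime divisors of `|S|` -/
def Condition (D : Twists G c) {E' : Type} [Field E'] {N : Subgroup G} [N.Normal]
    (lam : N →* E'ˣ) : Prop :=
  Group.IsNilpotent (Stabilizer lam ⧸ N.subgroupOf (Stabilizer lam)) ∨
  (∃ τ : E' →+* ℂ, OrderBelow D τ lam 2) ∨
  (Group.IsSolvable (Stabilizer lam) ∧ ∃ τ : E' →+* ℂ,
    ∀ p : ℕ, p.Prime → p ∣ Nat.card (Stabilizer lam) → OrderBelow D τ lam p)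

/-- the twist of a rational representation by a linear character, as a representation -/
lemma exists_twist {G : Type} [Group G] {E : Type} [Field E] [Algebra ℚ E] (ψ : G →* Eˣ)
    {V : Type} [AddCommGroup V] [Module ℚ V] [FiniteDimensional ℚ V] (ρ : Representation ℚ G V) :
    ∃ (d : ℕ) (σ : Representation E G (Fin d → E)),
      (∀ g, σ.character g = ((ψ g : Eˣ) : E) * algebraMap ℚ E (ρ.character g)) ∧
      ∀ g, ρ g = 1 → ψ g = 1 → σ g = 1 := by
  classical
  let b := Module.finBasis ℚ V
  let T : G →* Module.End E (Fin (Module.finrank ℚ V) → E) :=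
    ((Matrix.toLinAlgEquiv' (R := E) (n := Fin (Module.finrank ℚ V))).toAlgHom.toRingHom.toMonoidHom.comp
      ((RingHom.mapMatrix (algebraMap ℚ E)).toMonoidHom.comp
        ((LinearMap.toMatrixAlgEquiv b).toAlgHom.toRingHom.toMonoidHom.comp ρ)))
  have hT : ∀ g, T g = Matrix.toLin' ((LinearMap.toMatrix b b (ρ g)).map (algebraMap ℚ E)) := fun g => rfl
  let σ : Representation E G (Fin (Module.finrank ℚ V) → E) :=
    { toFun := fun g => ((ψ g : Eˣ) : E) • T g
      map_one' := by rw [map_one, map_one, Units.val_one, one_smul]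
      map_mul' := fun g h => by rw [map_mul, map_mul, Units.val_mul, smul_mul_smul_comm] }
  refine ⟨_, σ, fun g => ?_, fun g h1 h2 => ?_⟩
  · change LinearMap.trace E _ (((ψ g : Eˣ) : E) • T g) = _
    rw [map_smul, smul_eq_mul, hT, Matrix.trace_toLin'_eq]
    congr 1
    change _ = algebraMap ℚ E (LinearMap.trace ℚ V (ρ g))
    rw [LinearMap.trace_eq_matrix_trace ℚ b, Matrix.trace, Matrix.trace, map_sum]
    rfl
  · change ((ψ g : Eˣ) : E) • T g = 1
    rw [h2, Units.val_one, one_smul, hT, h1]
    have h3 : LinearMap.toMatrix b b (1 : Module.End ℚ V) = 1 := LinearMap.toMatrix_one b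
    rw [h3, Matrix.map_one _ (map_zero _) (map_one _), Matrix.toLin'_one]
    rfl

theorem main {G : Type} [Group G] [Finite G] {c : ℂ} (D : Twists G c)
    (E E' : Type) [Field E] [Field E'] [Algebra ℚ E] [Algebra.IsAlgebraic ℚ E] [Algebra E E']
    [Algebra.IsAlgebraic E E'] (ζ : E') (hζ : IsPrimitiveRoot ζ (Monoid.exponent G))
    (n : ℕ) (N : ℕ → Subgroup G) [∀ i, (N i).Normal]
    (hdesc : ∀ i, N (i + 1) ≤ N i) (hab : ∀ i, ⁅N i, N i⁆ ≤ N (i + 1))
    (hmon : ∀ (U : Subgroup G) (κ : U →* E'ˣ), N n ≤ U →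
      Holds D E' (Ind U (fun u => ((κ u : E'ˣ) : E'))))
    {V : Type} [AddCommGroup V] [Module ℚ V] [FiniteDimensional ℚ V] (ρ : Representation ℚ G V)
    (hρ : ∀ k ∈ N (n + 1), ∀ v, ρ k v = v)
    (hbase : Condition D (1 : N 0 →* E'ˣ) ∨
      ∀ (W : Type) [AddCommGroup W] [Module E' W] [FiniteDimensional E' W] (σ : Representation E' G W),
        (∀ k ∈ N 0, ∀ w, σ k w = w) → Holds D E' σ.character)
    (hlam : ∀ i ≤ n, ∀ lam : N i →* E'ˣ, lam ≠ 1 →
      (∀ k, ∀ hk : k ∈ N (i + 1), lam ⟨k, hdesc i hk⟩ = 1) →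
      ∑ᶠ k : N i, algebraMap E E' (algebraMap ℚ E (ρ.character k)) * (((lam k)⁻¹ : E'ˣ) : E') ≠ 0 →
      Condition D lam)
    (ψ : G →* Eˣ) (hψ : ∀ k ∈ N 0, ψ k = 1) :
    Holds D E (fun g => algebraMap ℚ E (ρ.character g) * ((ψ g : Eˣ) : E)) := by
  classical
  have hanti : Antitone N := antitone_nat_of_succ_le hdesc
  obtain ⟨d, σ, hσ, hσ1⟩ := exists_twist ψ ρ
  let L : (E →+* ℂ) → (G → ℂ) → ℂ → ℂ := fun _ => D.L
  let P : (E →+* ℂ) → (G → ℂ) → ℂ := fun _ => D.P
  by_cases hE : Nonempty (E →+* ℂ)
  swap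
  · exact ⟨1, fun τ => absurd ⟨τ⟩ hE⟩
  obtain ⟨τE⟩ := hE
  obtain ⟨τ₀⟩ : Nonempty (E' →+* ℂ) := by
    let _ : Algebra E ℂ := τE.toAlgebra
    exact ⟨(IsAlgClosed.lift : E' →ₐ[E] ℂ).toRingHom⟩
  have hfun : (fun g => algebraMap ℚ E (ρ.character g) * ((ψ g : Eˣ) : E)) = σ.character := by
    funext g
    rw [hσ, mul_comm]
  rw [hfun]
  have key : Pool.Agent.R389.Deligne L P c σ.character → Holds D E σ.character := fun h => h
  have hst : ∀ (M : Subgroup G) [M.Normal] (lam : M →* E'ˣ),
      Pool.Agent.R389.stb (Run7.h988.DR.lmu τ₀ lam) = Stabilizer lam := by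
    intro M _ lam
    ext g
    constructor
    · intro hg n
      exact Run7.h988.DR.lam_inv τ₀ lam hg n
    · intro hg
      rw [Pool.Agent.R389.mem_stb]
      refine MonoidHom.ext fun n => ?_
      rw [Pool.Agent.R389.cmu_apply]
      apply Units.ext
      have h1 := (Stabilizer lam).inv_mem hg n
      rw [Run7.h988.DR.lmu_apply, Run7.h988.DR.lmu_apply, h1]
  have hord : ∀ (M : Subgroup G) [M.Normal] (τ : E' →+* ℂ) (lam : M →* E'ˣ) (b : ℕ), OrderBelow D τ lam b →
      ∀ m : (G → ℂ) → ℕ, Pool.Agent.R389.IsDecomp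
        (Pool.Agent.R389.ind M (fun x => ((Run7.h988.DR.lmu τ lam x : ℂˣ) : ℂ))) m →
        meromorphicOrderAt (fun s => ∏ᶠ η ∈ Irr G, D.L η s ^ m η) c < b := by
    rintro M _ τ lam b ⟨m', hm', hlt⟩ m hm
    have hm'' : Pool.Agent.R389.IsDecomp
        (Pool.Agent.R389.ind M (fun x => ((Run7.h988.DR.lmu τ lam x : ℂˣ) : ℂ))) m' := hm'
    have h1 : (fun s => ∏ᶠ η ∈ Irr G, D.L η s ^ m η) = fun s => ∏ᶠ η ∈ Irr G, D.L η s ^ m' η := by
      funext s
      refine finprod_mem_congr rfl fun η hη => ?_
      have h2 := (hm.pr hη).symm.trans (hm''.pr hη)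
      have h3 : m η = m' η := by exact_mod_cast h2
      rw [h3]
    rw [h1]
    exact hlt
  have hcnd : ∀ (M : Subgroup G) [M.Normal] (lam : M →* E'ˣ), Condition D lam →
      Run7.h988.DR.Cnd (Run7.h988.DG.up E' L) c τ₀ lam := by
    intro M _ lam h
    have hT : ∀ (S S' : Subgroup G), S = S' → Group.IsNilpotent (S' ⧸ M.subgroupOf S') →
        Group.IsNilpotent (S ⧸ M.subgroupOf S) := by
      rintro S _ rfl h
      exact h
    rcases h with h | ⟨τ, h⟩ | ⟨hs, τ, h⟩
    · exact Or.inl (hT _ _ (hst M lam) h)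
    · refine Or.inr (Or.inl ⟨τ, fun m hm => ?_⟩)
      have h1 := hord M τ lam 2 h m hm
      have h2 : ∀ a : WithTop ℤ, a < ((2 : ℕ) : WithTop ℤ) → a ≤ 1 := by
        intro a ha
        induction a using WithTop.recTopCoe with
        | top => exact absurd ha (by simp)
        | coe a =>
          have h3 : (a : WithTop ℤ) < ((2 : ℤ) : WithTop ℤ) := ha
          have h4 : a < 2 := WithTop.coe_lt_coe.mp h3
          have h5 : a ≤ 1 := by omega
          exact_mod_cast h5
      exact h2 _ h1
    · rw [← hst M lam] at hs h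
      exact Or.inr (Or.inr ⟨hs, τ, fun m hm p hp hpd => hord M τ lam p (h p hp hpd) m hm⟩)
  refine key (by
    have h := Run7.h988.DG.descend_rep (E' := E') (L := L) (P := P) (c := c) (τ₀.comp (algebraMap E E'))
      (fun τ => D.ne) σ (fun d σ' hσ' => ?_)
    · exact h
    refine Run7.h988.DR.main_tower (L := Run7.h988.DG.up E' L) (P := Run7.h988.DG.up E' P) hζ
      (fun τ => D.mero) (fun τ => D.ne) n N hdesc hab hmon τ₀ σ' ?_ ?_ ?_
    · intro g k hk
      have h1 : σ (g * k) = σ g := by
        rw [map_mul, hσ1 k (LinearMap.ext fun v => hρ k hk v) (hψ k (hanti (Nat.zero_le _) hk)), mul_one]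
      rw [hσ']
      change algebraMap E E' (LinearMap.trace E _ (σ (g * k))) = algebraMap E E' (LinearMap.trace E _ (σ g))
      rw [h1]
    · exact hbase.imp (hcnd _ _) fun h W _ _ _ σ hσ => h W σ hσ
    · intro i hi lam hne h1 hocc
      refine hcnd _ _ (hlam i hi lam hne h1 ?_)
      rw [hσ'] at hocc
      intro h0
      apply hocc
      rw [← h0]
      refine finsum_congr fun k => ?_
      congr 1
      change algebraMap E E' (σ.character k) = _
      rw [hσ, hψ k (hanti (Nat.zero_le i) k.2), Units.val_one, one_mul])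

/-- the character of the permutation representation on `G ⧸ H`: the number of fixed points -/
noncomputable def perm (H : Subgroup G) (g : G) : ℕ := Nat.card {x : G ⧸ H // g • x = x}

/-- the permutation representation on the functions on `G ⧸ H` -/
def permRep {G : Type} [Group G] (H : Subgroup G) : Representation ℚ G (G ⧸ H → ℚ) where
  toFun g := LinearMap.funLeft ℚ ℚ (fun x => g⁻¹ • x)
  map_one' := by
    refine LinearMap.ext fun f => ?_
    funext x
    change f ((1 : G)⁻¹ • x) = f x
    rw [inv_one, one_smul]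
  map_mul' g h := by
    refine LinearMap.ext fun f => ?_
    funext x
    change f ((g * h)⁻¹ • x) = f (h⁻¹ • g⁻¹ • x)
    rw [mul_inv_rev, mul_smul]

lemma perm_char {G : Type} [Group G] [Finite G] (H : Subgroup G) (g : G) :
    (permRep H).character g = (perm H g : ℚ) := by
  classical
  have : Fintype (G ⧸ H) := Fintype.ofFinite _
  change LinearMap.trace ℚ _ ((permRep H) g) = _
  rw [LinearMap.trace_eq_matrix_trace ℚ (Pi.basisFun ℚ (G ⧸ H)), Matrix.trace]
  have h1 : ∀ x : G ⧸ H, (LinearMap.toMatrix (Pi.basisFun ℚ (G ⧸ H))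
      (Pi.basisFun ℚ (G ⧸ H)) ((permRep H) g)).diag x =
      if g • x = x then (1 : ℚ) else 0 := by
    intro x
    rw [Matrix.diag_apply, LinearMap.toMatrix_apply, Pi.basisFun_repr, Pi.basisFun_apply]
    change (Pi.single x (1 : ℚ) : G ⧸ H → ℚ) (g⁻¹ • x) = _
    rw [Pi.single_apply]
    have h2 : g⁻¹ • x = x ↔ g • x = x := by
      rw [inv_smul_eq_iff, eq_comm]
    simp only [h2]
  rw [Finset.sum_congr rfl (fun x _ => h1 x), Finset.sum_boole, perm, Nat.card_eq_fintype_card,
    Fintype.card_subtype]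

/-- **Rationality of the value for the base change to `K^H`.** -/
theorem result {G : Type} [Group G] [Finite G] (D : Twists G 1)
    (E' : Type) [Field E'] [Algebra ℚ E'] [Algebra.IsAlgebraic ℚ E'] (ζ : E')
    (hζ : IsPrimitiveRoot ζ (Monoid.exponent G))
    (n : ℕ) (N : ℕ → Subgroup G) [∀ i, (N i).Normal]
    (hdesc : ∀ i, N (i + 1) ≤ N i) (hab : ∀ i, ⁅N i, N i⁆ ≤ N (i + 1))
    (hmon : ∀ (U : Subgroup G) (κ : U →* E'ˣ), N n ≤ U →
      Holds D E' (Ind U (fun u => ((κ u : E'ˣ) : E'))))
    (H : Subgroup G) (hH : N (n + 1) ≤ H)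
    (hbase : Condition D (1 : N 0 →* E'ˣ) ∨
      ∀ (W : Type) [AddCommGroup W] [Module E' W] [FiniteDimensional E' W] (σ : Representation E' G W),
        (∀ k ∈ N 0, ∀ w, σ k w = w) → Holds D E' σ.character)
    (hlam : ∀ i ≤ n, ∀ lam : N i →* E'ˣ, lam ≠ 1 →
      (∀ k, ∀ hk : k ∈ N (i + 1), lam ⟨k, hdesc i hk⟩ = 1) →
      ∑ᶠ k : N i, (perm H k : E') * (((lam k)⁻¹ : E'ˣ) : E') ≠ 0 → Condition D lam)
    (m : (G → ℂ) → ℕ) (hm : IsSum (fun g => (perm H g : ℂ)) m)
    (LA : ℂ → ℂ) (hLA : ∀ s, LA s = ∏ᶠ χ ∈ Irr G, D.L χ s ^ m χ) (hc : ContinuousAt LA 1) :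
    ∃ q : ℚ, LA 1 = q * ∏ᶠ χ ∈ Irr G, D.P χ ^ m χ := by
  classical
  have : Fintype (G ⧸ H) := Fintype.ofFinite _
  have h := main D ℚ E' ζ hζ n N hdesc hab hmon (permRep H) (by
      intro k hk v
      have h1 : ∀ x : G ⧸ H, k • x = x := by
        intro x
        obtain ⟨y, rfl⟩ := QuotientGroup.mk_surjective x
        change ((k * y : G) : G ⧸ H) = y
        rw [eq_comm, QuotientGroup.eq]
        apply hH
        have h2 := (inferInstance : (N (n + 1)).Normal).conj_mem k hk y⁻¹
        rw [inv_inv] at h2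
        rwa [← mul_assoc]
      funext x
      change v (k⁻¹ • x) = v x
      rw [inv_smul_eq_iff.mpr (h1 x).symm]) hbase
    (fun i hi lam hne h1 hocc => hlam i hi lam hne h1 (by
      intro h0
      apply hocc
      rw [← h0]
      refine finsum_congr fun k => ?_
      rw [perm_char]
      simp)) 1 (fun _ _ => rfl)
  obtain ⟨e, he⟩ := h
  refine ⟨e, ?_⟩
  have h1 := he (algebraMap ℚ ℂ) m (by
    intro g
    have h2 := hm g
    refine Eq.trans ?_ h2
    change (algebraMap ℚ ℂ) ((algebraMap ℚ ℚ) ((permRep H).character g) * (((1 : ℚˣ) : ℚ))) = (perm H g : ℂ)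
    rw [perm_char]
    simp)
  have h2 : Tendsto LA (𝓝[≠] 1) (𝓝 (LA 1)) := hc.tendsto.mono_left nhdsWithin_le_nhds
  have h3 : LA = fun s => ∏ᶠ χ ∈ Irr G, D.L χ s ^ m χ := funext hLA
  rw [← h3] at h1
  exact tendsto_nhds_unique h2 h1

end Pool.Agent.Results.MP_90f827_nt.BaseChangesNonGalois
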