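import Pool.Agent.Run7.h479.XX.Centre

/-!
# The rationality of `L(1, A) / Ω(A)` by numbers of points

Let `A` be an elliptic curve over a number field `F`, given by a Weierstrass equation over the integers of `F`.
For the primes `v` outside a finite set there are `α_{v,1}, α_{v,2}`, of absolute value at most `√N(v)`, such that
`#A(κ) = q + 1 - α_{v,1}^k - α_{v,2}^k` for the extension `κ` of degree `k` of the residue field, `q = N(v)^k`.
For `γ > π/2` and `T > 0` put

`W(T) = ∑_v ∑_{k ≥ 1} (α_{v,1}^k + α_{v,2}^k) / (k N(v)^k) · exp(iγ k log N(v) / T) / Γ(1 + k log N(v) / T)`,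

where `α_{v,1}^k + α_{v,2}^k = q + 1 - #A(κ)` for all but finitely many `v`. The series converges absolutely,
although the point `s = 1` is outside the region of convergence of the Euler product of `L(s, A)`, and

`|exp(W(T)) - L(1, A)| ≤ C / T` for large `T`, if `L(s, A)` has an analytic continuation along `[1, 3/2]`.

No zero hypothesis is used. So Q1 for `A`, i.e. `L(1, A) ∈ Ω(A) ℚ^×` for `L(1, A) ≠ 0`, is a statement about the
numbers of points over finite fields and the number `Ω(A)`: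

there is an integer `D ≥ 1` such that the distance of `D exp(W(T_k)) / Ω(A)` to the integers tends to `0` for one
sequence `T_k → ∞`,

and if it is true then this distance is at most `C' / T` for all large `T`; while if it is false then for
every `D` this distance is at least some `ε > 0` for all large `T`.

The law for Euler products at an arbitrary real point is due to helper453 (library `Pool.Agent.Run7.h453.CX`,
`MP_46b841_nt.ChebotarevAtZero`, `MP_15b3df_nt.TraceLimitFormula`).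
-/

set_option autoImplicit false

open Filter Topology Set NumberField IsDedekindDomain Run7.h479.XX

namespace Pool.Agent.Results.MP_90f827_nt.RationalityByPointCounts

variable {F : Type} [Field F] [NumberField F]

/-- The number of the points of the projective curve with the Weierstrass equation `E` over the field `κ`
(including a singular point, if there is one). -/
noncomputable def points (E : WeierstrassCurve (𝓞 F)) (κ : Type) [Field κ] [Algebra (𝓞 F) κ] : ℕ :=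
  1 + Nat.card {u : κ × κ // (E.map (algebraMap (𝓞 F) κ)).toAffine.Equation u.1 u.2}

/-- `L(s) = L(s, A)`: outside the finite set `S` of primes the `α_{v,j}` have absolute value at most
`√N(v)` and give the numbers of points over the finite fields `κ` over `v`; at the primes in `S` they are any
numbers of absolute value at most `√N(v)` (`0`, `1`, `-1` or the eigenvalues). `L` is the Euler product for
`Re s > 3/2`, and analytic at the points of the real interval `[1, 3/2]`. -/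
structure IsLFunction (E : WeierstrassCurve (𝓞 F)) (S : Finset (HeightOneSpectrum (𝓞 F)))
    (α : HeightOneSpectrum (𝓞 F) → Fin 2 → ℂ) (L : ℂ → ℂ) : Prop where
  good : ∀ v ∉ S, ∀ (κ : Type) [Field κ] [Finite κ] [Algebra (𝓞 F) κ] (k : ℕ),
    RingHom.ker (algebraMap (𝓞 F) κ) = v.asIdeal → (Nat.card κ : ℝ) = nm v ^ k →
      (points E κ : ℂ) = (nm v : ℂ) ^ k + 1 - (α v 0 ^ k + α v 1 ^ k)
  norm : ∀ v j, ‖α v j‖ ≤ √(nm v)
  prod : ∀ s : ℂ, 3 / 2 < s.re → L s = ∏' v : HeightOneSpectrum (𝓞 F), ∏ j,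
    (1 - α v j * (nm v : ℂ) ^ (-s))⁻¹
  analytic : ∀ x : ℝ, 1 ≤ x → x ≤ 3 / 2 → AnalyticAt ℂ L (x : ℂ)

/-- The term of `W(T)` for `v = x.1` and `k = x.2`. -/
noncomputable def term (α : HeightOneSpectrum (𝓞 F) → Fin 2 → ℂ) (γ T : ℝ)
    (x : HeightOneSpectrum (𝓞 F) × ℕ+) : ℂ :=
  (α x.1 0 ^ (x.2 : ℕ) + α x.1 1 ^ (x.2 : ℕ)) / (((x.2 : ℕ) : ℂ) * (nm x.1 : ℂ) ^ (x.2 : ℕ)) *
    weight γ T ((x.2 : ℕ) * Real.log (nm x.1))

/-- `W(T)` -/
noncomputable def W (α : HeightOneSpectrum (𝓞 F) → Fin 2 → ℂ) (γ T : ℝ) : ℂ := ∑' x, term α γ T x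

/-- `z` is at distance less than `ε` from the integers. -/
def Near (z : ℂ) (ε : ℝ) : Prop := ∃ n : ℤ, ‖z - n‖ < ε

section proof

theorem isClosed_int : IsClosed (Set.range ((↑) : ℤ → ℂ)) := by
  have h := (Complex.isometry_ofReal.isClosedEmbedding.comp
    Int.isClosedEmbedding_coe_real).isClosed_range
  convert h using 2
  funext n
  simp

theorem exp_rate {z w : ℂ} (h : ‖z - w‖ ≤ 1) : ‖Complex.exp z - Complex.exp w‖ ≤
    2 * ‖Complex.exp w‖ * ‖z - w‖ := by
  have h1 : Complex.exp z - Complex.exp w = Complex.exp w * (Complex.exp (z - w) - 1) := by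
    rw [mul_sub, ← Complex.exp_add, mul_one]
    congr 2
    ring
  rw [h1, norm_mul]
  have h2 := Complex.norm_exp_sub_one_le h
  nlinarith [norm_nonneg (Complex.exp w)]

variable {E : WeierstrassCurve (𝓞 F)} {S : Finset (HeightOneSpectrum (𝓞 F))}
  {α : HeightOneSpectrum (𝓞 F) → Fin 2 → ℂ} {L : ℂ → ℂ}

theorem term_eq (γ T : ℝ) (x : HeightOneSpectrum (𝓞 F) × ℕ+) :
    term α γ T x = Centre.term α 1 γ T x := by
  unfold term Centre.term
  rw [mul_one, Real.rpow_natCast, Fin.sum_univ_two]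
  push_cast
  rfl

theorem IsLFunction.isL (h : IsLFunction E S α L) : Centre.IsL (1 / 2) 1 α L where
  norm := fun v j => by
    rw [← Real.sqrt_eq_rpow]
    exact h.norm v j
  euler := fun s hs => h.prod s (by norm_num at hs ⊢; exact hs)
  mero := fun x h1 h2 => (h.analytic x h1 (by linarith)).meromorphicAt
  le := by norm_num

end proof

/-- **Theorem.** Let `L(s) = L(s, A)`, `L(1) ≠ 0`, `Ω ≠ 0` a complex number (`Ω(A)` in Q1) and `γ > π/2`.

* The series `W(T)` converges absolutely for `T > 0`.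
* `|exp(W(T)) - L(1)| ≤ C / T` for all large `T`.
* `L(1) ∈ Ω ℚ^×` if and only if for an integer `D ≥ 1` and one sequence `T_k → ∞` the distance of
  `D exp(W(T_k)) / Ω` to the integers tends to `0`.
* If `L(1) ∈ Ω ℚ^×`, then for some `D ≥ 1` and `C` the distance is less than `C / T` for all large `T`.
* If `L(1) ∉ Ω ℚ^×`, then for every `D ≥ 1` there is an `ε > 0` such that the distance is at least `ε` for all
  large `T`. -/
theorem result (E : WeierstrassCurve (𝓞 F)) (S : Finset (HeightOneSpectrum (𝓞 F)))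
    (α : HeightOneSpectrum (𝓞 F) → Fin 2 → ℂ) (L : ℂ → ℂ) (h : IsLFunction E S α L)
    (h1 : L 1 ≠ 0) (Ω : ℂ) (hΩ : Ω ≠ 0) (γ : ℝ) (hγ : Real.pi / 2 < γ) :
    (∀ T : ℝ, 0 < T → Summable fun x => ‖term α γ T x‖) ∧
    (∃ C T₀ : ℝ, ∀ T ≥ T₀, ‖Complex.exp (W α γ T) - L 1‖ ≤ C / T) ∧
    ((∃ y : ℚ, y ≠ 0 ∧ L 1 = y * Ω) ↔ ∃ D : ℕ, 0 < D ∧ ∃ T : ℕ → ℝ, Tendsto T atTop atTop ∧
      ∀ ε > 0, ∀ᶠ k in atTop, Near (D * Complex.exp (W α γ (T k)) / Ω) ε) ∧
    ((∃ y : ℚ, y ≠ 0 ∧ L 1 = y * Ω) → ∃ D : ℕ, 0 < D ∧ ∃ C T₀ : ℝ, ∀ T ≥ T₀,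
      Near (D * Complex.exp (W α γ T) / Ω) (C / T)) ∧
    ((¬∃ y : ℚ, y ≠ 0 ∧ L 1 = y * Ω) → ∀ D : ℕ, 0 < D → ∃ ε > 0, ∃ T₀ : ℝ, ∀ T ≥ T₀,
      ¬Near (D * Complex.exp (W α γ T) / Ω) ε) := by
  have hI := h.isL
  have hW : ∀ T : ℝ, W α γ T = Centre.sum α 1 γ T := fun T => tsum_congr fun x => term_eq γ T x
  -- the rate
  have hrate : ∃ C T₀ : ℝ, 0 ≤ C ∧ ∀ T ≥ T₀, ‖Complex.exp (W α γ T) - L 1‖ ≤ C / T := by
    obtain ⟨m, ρ, C, T₀, hm, hr, h2⟩ := hI.law hγ
    have han : AnalyticAt ℂ L ((1 : ℝ) : ℂ) := h.analytic 1 le_rfl (by norm_num)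
    have h1' : L ((1 : ℝ) : ℂ) ≠ 0 := by rwa [Complex.ofReal_one]
    have h3 : meromorphicOrderAt L ((1 : ℝ) : ℂ) = 0 := by
      refine (tendsto_ne_zero_iff_meromorphicOrderAt_eq_zero han.meromorphicAt).1
        ⟨_, h1', han.continuousAt.tendsto.mono_left nhdsWithin_le_nhds⟩
    have hm0 : m = 0 := by
      rw [hm] at h3
      exact_mod_cast h3
    subst hm0
    have h4 := Pool.Agent.N41.RM.lim_of_order han.meromorphicAt hm rfl
    simp only [neg_zero, zpow_zero, one_mul] at h4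
    have h5 := tendsto_nhds_unique (han.continuousAt.tendsto.mono_left nhdsWithin_le_nhds) h4
    rw [← hr, Complex.ofReal_one] at h5
    refine ⟨2 * ‖Complex.exp ρ‖ * |C|, max (max T₀ |C|) 1, by positivity, fun T hT => ?_⟩
    have hT1 : 1 ≤ T := le_trans (le_max_right _ _) hT
    have hT2 : T₀ ≤ T := le_trans (le_trans (le_max_left _ _) (le_max_left _ _)) hT
    have hT3 : |C| ≤ T := le_trans (le_trans (le_max_right _ _) (le_max_left _ _)) hT
    have h6 := h2 T hT2
    simp only [Int.cast_zero, zero_mul, sub_zero] at h6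
    have h7 : ‖W α γ T - ρ‖ ≤ |C| / T := by
      rw [hW]
      exact h6.trans (by gcongr; exact le_abs_self C)
    have h8 : |C| / T ≤ 1 := by
      rw [div_le_one (by linarith)]
      exact hT3
    rw [h5]
    refine (exp_rate (h7.trans h8)).trans ?_
    calc 2 * ‖Complex.exp ρ‖ * ‖W α γ T - ρ‖ ≤ 2 * ‖Complex.exp ρ‖ * (|C| / T) := by gcongr
      _ = 2 * ‖Complex.exp ρ‖ * |C| / T := by ring
  obtain ⟨C, T₀, hC0, hC⟩ := hrate
  have hlim : Tendsto (fun T : ℝ => Complex.exp (W α γ T)) atTop (𝓝 (L 1)) := by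
    rw [tendsto_iff_norm_sub_tendsto_zero]
    refine squeeze_zero' (Eventually.of_forall fun T => norm_nonneg _) ?_
      (tendsto_const_nhds.div_atTop tendsto_id : Tendsto (fun T : ℝ => C / T) atTop (𝓝 0))
    filter_upwards [eventually_ge_atTop T₀] with T hT using hC T hT
  have hlimD : ∀ D : ℕ, Tendsto (fun T : ℝ => (D : ℂ) * Complex.exp (W α γ T) / Ω) atTop
      (𝓝 (D * L 1 / Ω)) := fun D => (hlim.const_mul _).div_const _
  -- an integer limit
  have hrat : ∀ D : ℕ, 0 < D → (D : ℂ) * L 1 / Ω ∈ Set.range ((↑) : ℤ → ℂ) →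
      ∃ y : ℚ, y ≠ 0 ∧ L 1 = y * Ω := by
    rintro D hD ⟨n, hn⟩
    have hD' : (D : ℂ) ≠ 0 := by exact_mod_cast hD.ne'
    refine ⟨n / D, ?_, ?_⟩
    · intro h2
      have h3 : (n : ℚ) = 0 := by
        rcases div_eq_zero_iff.1 h2 with h3 | h3
        · exact h3
        · exact absurd h3 (by exact_mod_cast hD.ne')
      have h4 : (n : ℂ) = 0 := by exact_mod_cast h3
      rw [h4] at hn
      exact div_ne_zero (mul_ne_zero hD' h1) hΩ hn.symm
    · push_cast
      rw [hn]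
      field_simp
  have hquant : (∃ y : ℚ, y ≠ 0 ∧ L 1 = y * Ω) → ∃ D : ℕ, 0 < D ∧ ∃ C T₀ : ℝ, ∀ T ≥ T₀,
      Near (D * Complex.exp (W α γ T) / Ω) (C / T) := by
    rintro ⟨y, hy, hy1⟩
    refine ⟨y.den, y.den_pos, (y.den : ℝ) * C / ‖Ω‖ + 1, max T₀ 1, fun T hT => ⟨y.num, ?_⟩⟩
    have hT1 : 1 ≤ T := le_trans (le_max_right _ _) hT
    have hT0 : T₀ ≤ T := le_trans (le_max_left _ _) hT
    have h2 : (y.den : ℂ) * y = y.num := by
      have := Rat.den_mul_eq_num y
      exact_mod_cast this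
    have h3 : (y.den : ℂ) * Complex.exp (W α γ T) / Ω - y.num =
        y.den * (Complex.exp (W α γ T) - L 1) / Ω := by
      rw [hy1, ← h2]
      field_simp
    rw [h3, norm_div, norm_mul, Complex.norm_natCast]
    have hΩ' : 0 < ‖Ω‖ := norm_pos_iff.2 hΩ
    calc (y.den : ℝ) * ‖Complex.exp (W α γ T) - L 1‖ / ‖Ω‖ ≤ (y.den : ℝ) * (C / T) / ‖Ω‖ := by
          gcongr
          exact hC T hT0
      _ = ((y.den : ℝ) * C / ‖Ω‖) / T := by ring
      _ < ((y.den : ℝ) * C / ‖Ω‖ + 1) / T := by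
          gcongr
          linarith
  have hfar : ∀ D : ℕ, (D : ℂ) * L 1 / Ω ∉ Set.range ((↑) : ℤ → ℂ) → ∃ ε > 0, ∃ T₀ : ℝ, ∀ T ≥ T₀,
      ¬Near (D * Complex.exp (W α γ T) / Ω) ε := by
    intro D hD
    obtain ⟨ε, hε, h2⟩ := Metric.isOpen_iff.1 isClosed_int.isOpen_compl _ hD
    have h3 := (hlimD D).eventually (Metric.ball_mem_nhds _ (half_pos hε))
    obtain ⟨T₁, hT₁⟩ := eventually_atTop.1 h3
    refine ⟨ε / 2, half_pos hε, T₁, fun T hT => ?_⟩
    rintro ⟨n, hn⟩
    have h4 := hT₁ T hT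
    rw [dist_eq_norm] at h4
    have h5 : (n : ℂ) ∈ Metric.ball ((D : ℂ) * L 1 / Ω) ε := by
      rw [Metric.mem_ball, dist_eq_norm]
      calc ‖(n : ℂ) - D * L 1 / Ω‖ = ‖((D : ℂ) * Complex.exp (W α γ T) / Ω - D * L 1 / Ω) -
            (D * Complex.exp (W α γ T) / Ω - n)‖ := by congr 1; ring
        _ ≤ ‖(D : ℂ) * Complex.exp (W α γ T) / Ω - D * L 1 / Ω‖ +
            ‖(D : ℂ) * Complex.exp (W α γ T) / Ω - n‖ := norm_sub_le _ _
        _ < ε := by linarith
    exact h2 h5 ⟨n, rfl⟩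
  refine ⟨fun T hT => ?_, ⟨C, T₀, hC⟩, ⟨fun h2 => ?_, ?_⟩, hquant, fun h2 D hD => ?_⟩
  · exact (hI.summable γ hT).congr fun x => by rw [term_eq]
  · obtain ⟨D, hD, C', T₁, h3⟩ := hquant h2
    refine ⟨D, hD, fun k => k, tendsto_natCast_atTop_atTop, fun ε hε => ?_⟩
    have h4 : Tendsto (fun k : ℕ => C' / (k : ℝ)) atTop (𝓝 0) :=
      tendsto_const_nhds.div_atTop tendsto_natCast_atTop_atTop
    filter_upwards [h4.eventually (gt_mem_nhds hε),
      tendsto_natCast_atTop_atTop.eventually (eventually_ge_atTop T₁)] with k hk hk'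
    obtain ⟨n, hn⟩ := h3 k hk'
    exact ⟨n, hn.trans hk⟩
  · rintro ⟨D, hD, T, hT, h2⟩
    refine hrat D hD ?_
    by_contra h3
    obtain ⟨ε, hε, T₁, h4⟩ := hfar D h3
    obtain ⟨k, hk, hk'⟩ := ((h2 ε hε).and (hT.eventually (eventually_ge_atTop T₁))).exists
    exact h4 (T k) hk' hk
  · exact hfar D fun h3 => h2 (hrat D hD h3)

end Pool.Agent.Results.MP_90f827_nt.RationalityByPointCounts
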